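import Pool.Agent.Helper60.GreedyMISProof

namespace Pool.Agent.Results.MP_9b45c5_lc.GreedyMIS

open SimpleGraph Pool.Agent.Helper60.GreedyMIS

/-- Greedy maximum-independent-set colouring of an interference graph never uses more than
`11/2` times the chromatic number of colours. -/
theorem result {V ι : Type*} [Fintype ι] [DecidableEq ι] (T : SimpleGraph V) (hT : T.IsTree)
    (R : ι → Request T) (L : List (Finset ι))
    (hrun : IsGreedyRun (interferenceGraph R) Finset.univ L) :
    2 * (L.length : ℕ∞) ≤ 11 * (interferenceGraph R).chromaticNumber :=
  main T hT R L hrun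

end Pool.Agent.Results.MP_9b45c5_lc.GreedyMIS
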